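import Pool.Agent.Helper58.QS.Main

set_option autoImplicit false

/-!
# A transverse circle that is not the limit set of a uniformly regular quasi-isometric embedding

Question Q1 of MP_02cffa_gt asks whether every transverse sphere in a flag manifold `F_Θ(G)` is the
`Θ`-limit set of a `Θ`-uniformly regular quasi-isometric embedding of a locally compact Gromov
hyperbolic space into the symmetric space. The answer is no. The counterexample is for
`G = SL(2, ℝ) × SL(2, ℝ)` and the set `Θ` of all simple roots; then the flag manifold is the torus
`ℝP¹ × ℝP¹`, its transverse circles are the graphs of the homeomorphisms `h` of the circle, and the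
transverse circle of the theorem is the graph of a homeomorphism `h` whose inverse is not Hölder
continuous, `h(x) = exp(x - 1/x)` and `h(-x) = -h(x)` for `x > 0`, `h(0) = 0` and `h(∞) = ∞`.

The definitions are in `Pool/Agent/Helper58/QS/Defs.lean`.

Idea of the proof: the two components `f₁, f₂ : Z → ℍ²` of a uniformly regular quasi-isometric
embedding are quasi-isometric embeddings, and two quasi-isometric embeddings of the same
(quasi-)geodesic space into hyperbolic planes have comparable Gromov products (`compare`); so the
limit set can be the graph of `h` only if `h` and `h⁻¹` are Hölder continuous. Neither the local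
compactness nor the hyperbolicity of `Z` is needed.
-/

namespace Pool.Agent.Results.MP_02cffa_gt.TransverseCircle

open Pool.Agent.Helper58.QS

universe u

/-- **A transverse circle that is not a limit set.** In the flag manifold `ℝP¹ × ℝP¹` of
`G = SL(2, ℝ) × SL(2, ℝ)` there is a transverse sphere `Λ` (a circle) such that no
`Θ`-uniformly regular quasi-isometric embedding `f : Z → G / K`, defined on any geodesic metric
space `Z` (more generally, on any quasi-geodesic space), has `Θ`-limit set `Λ`. In particular `Λ`
is not the limit set of such an embedding of a locally compact Gromov hyperbolic (geodesic)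
space. -/
theorem result : ∃ Λ : Set Flag, IsTransverseSphere Λ ∧
    ∀ (Z : Type u) [MetricSpace Z], IsQuasiGeodesicSpace Z →
      ∀ (L A : ℝ) (f : Z → G), 1 ≤ L → 0 ≤ A → IsURQIE L A f → limitSet f ≠ Λ :=
  ⟨Lam, isTransverseSphere_Lam, fun _ _ hZ _ _ _ hL hA hf => not_limitSet hZ hL hA hf⟩

end Pool.Agent.Results.MP_02cffa_gt.TransverseCircle
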